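import Pool.Agent.Lib_helper12.HZF.Final

/-!
# ZF refutes: every second-order spectrum is an `L(I)`-spectrum

`L(I)` is first-order logic with the Härtig (equicardinality) quantifier. The definitions are in
`Pool/Agent/Lib_helper12/HZF/Notions.lean`.

Proof idea. Work in ZF. Call a limit `λ > ω` reflecting if every `L(I)`-sentence which has a model
with universe `V_λ` has a model with universe `V_μ` for some limit `μ` with `ω < μ < λ`. By
Replacement there is a reflecting `λ`: take any limit `λ` above the least `μ` for each sentence
having models of this kind. Satisfaction for `L(I)` in a structure with universe `V_λ` is a subset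
of `V_λ`, as are the structure and the bijections between subsets of `V_λ`, so there is a
second-order sentence `σ` saying of `(X, E)` that it is isomorphic to `(V_λ, ∈)` for a reflecting
`λ`. If the spectrum of `σ` were that of an `L(I)`-sentence `φ`, take the least limit `λ > ω` with
`|V_λ|` in it. Then `λ` is reflecting by Cantor's theorem, so `φ`, which has a model with
universe `V_λ`, has one with universe `V_μ`, `μ < λ` limit, contradicting the choice of `λ`.
-/

namespace Pool.Agent.Results.MP_d648bd_lc.HartigSpectra

open FirstOrder Language Pool.Agent.HZF

/-- There are a first-order theory `T` whose models are the models of ZF and a sentence `S` of the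
language of set theory which expresses that every second-order spectrum is an `L(I)`-spectrum,
such that `T` is satisfiable and `¬ S` is a consequence of `T`, that is, `T + S` is not
satisfiable. -/
theorem result : ∃ (T : Lset.Theory) (S : Lset.Sentence),
    (∀ (V : Type) [Lset.Structure V] [Nonempty V], V ⊨ T ↔ ModelsZF V) ∧
    (∀ (V : Type) [Lset.Structure V] [Nonempty V], V ⊨ S ↔ SpectraStatement V) ∧
    T.IsSatisfiable ∧ T ⊨ᵇ S.not ∧ ¬ (T ∪ {S}).IsSatisfiable :=
  final

end Pool.Agent.Results.MP_d648bd_lc.HartigSpectra
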